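import Pool.Agent.Helper58.DP.Def

/-! # Swarm DP, part I -/

set_option autoImplicit false

namespace Pool.Agent.Helper22.DP

open Finset Pool.Agent.Helper58.DP

/-- linear forms with a nonzero minor are algebraically independent -/
theorem lin_indep {N M : ℕ} (A : Matrix (Fin M) (Fin N) ℂ) (e : Fin M → Fin N)
    (hdet : (A.submatrix id e).det ≠ 0) :
    AlgebraicIndependent ℂ (fun l : Fin M =>
      (∑ m, MvPolynomial.C (A l m) * MvPolynomial.X m : MvPolynomial (Fin N) ℂ)) := by
  classical
  set A' := A.submatrix id e with hA'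
  set B : Matrix (Fin N) (Fin M) ℂ := (Matrix.of fun m j => if m = e j then (1 : ℂ) else 0) * A'⁻¹
    with hB
  have hAE : A * (Matrix.of fun m j => if m = e j then (1 : ℂ) else 0) = A' := by
    ext l j
    simp [Matrix.mul_apply, hA']
  have hAB : A * B = 1 := by
    rw [hB, ← Matrix.mul_assoc, hAE, Matrix.mul_nonsing_inv]
    exact isUnit_iff_ne_zero.2 hdet
  set ψ : MvPolynomial (Fin N) ℂ →ₐ[ℂ] MvPolynomial (Fin M) ℂ :=
    MvPolynomial.aeval fun m => ∑ j, MvPolynomial.C (B m j) * MvPolynomial.X j with hψ
  have h1 : ψ.comp (MvPolynomial.aeval (fun l : Fin M =>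
      (∑ m, MvPolynomial.C (A l m) * MvPolynomial.X m : MvPolynomial (Fin N) ℂ))) =
      AlgHom.id ℂ _ := by
    apply MvPolynomial.algHom_ext
    intro l
    rw [AlgHom.comp_apply, MvPolynomial.aeval_X, AlgHom.id_apply, map_sum]
    have h2 : ∀ m, ψ (MvPolynomial.C (A l m) * MvPolynomial.X m)
        = ∑ j, MvPolynomial.C (A l m * B m j) * MvPolynomial.X j := by
      intro m
      rw [map_mul, hψ, MvPolynomial.aeval_X, MvPolynomial.aeval_C, mul_sum]
      apply sum_congr rfl
      intro j _
      rw [← mul_assoc, map_mul]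
      rfl
    simp_rw [h2]
    rw [sum_comm]
    have h3 : ∀ j, ∑ m, MvPolynomial.C (A l m * B m j) * (MvPolynomial.X j : MvPolynomial (Fin M) ℂ)
        = MvPolynomial.C ((A * B) l j) * MvPolynomial.X j := by
      intro j
      rw [← sum_mul, ← map_sum, Matrix.mul_apply]
    simp_rw [h3, hAB, Matrix.one_apply]
    rw [sum_eq_single l]
    · simp
    · intro j _ hj
      rw [if_neg (fun h => hj h.symm)]
      simp
    · simp
  have h2 : Function.Injective (ψ.comp (MvPolynomial.aeval (fun l : Fin M =>
      (∑ m, MvPolynomial.C (A l m) * MvPolynomial.X m : MvPolynomial (Fin N) ℂ)))) := by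
    rw [h1]; exact Function.injective_id
  rw [AlgHom.coe_comp] at h2
  exact h2.of_comp

/-- the lowest form of a relation -/
theorem ps_indep {k : Type} [Field k] [Algebra ℂ k] {M : ℕ} (c : Fin M → ℂ) (u : Fin M → k)
    (hu : AlgebraicIndependent ℂ u) (y : Fin M → PowerSeries k)
    (h0 : ∀ l, PowerSeries.coeff 0 (y l) = algebraMap ℂ k (c l))
    (h1 : ∀ l, PowerSeries.coeff 1 (y l) = u l) : AlgebraicIndependent ℂ y := by
  classical
  have hz : ∀ l, ∃ w : PowerSeries k, y l = algebraMap ℂ (PowerSeries k) (c l) + PowerSeries.X * w := by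
    intro l
    have : PowerSeries.X ∣ y l - algebraMap ℂ (PowerSeries k) (c l) := by
      rw [PowerSeries.X_dvd_iff, map_sub, ← PowerSeries.coeff_zero_eq_constantCoeff_apply, h0,
        PowerSeries.algebraMap_apply]
      simp
    obtain ⟨w, hw⟩ := this
    exact ⟨w, by rw [← hw]; ring⟩
  choose w hw using hz
  have hw0 : ∀ l, PowerSeries.constantCoeff (w l) = u l := by
    intro l
    have h2 := h1 l
    rw [hw l, map_add, PowerSeries.algebraMap_apply, PowerSeries.coeff_C, if_neg one_ne_zero,
      zero_add, show (1 : ℕ) = 0 + 1 from rfl, PowerSeries.coeff_succ_X_mul,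
      PowerSeries.coeff_zero_eq_constantCoeff_apply] at h2
    exact h2
  rw [AlgebraicIndependent, injective_iff_map_eq_zero]
  intro Q hQ
  -- translation
  set T : MvPolynomial (Fin M) ℂ →ₐ[ℂ] MvPolynomial (Fin M) ℂ :=
    MvPolynomial.aeval fun l => MvPolynomial.X l + MvPolynomial.C (c l) with hT
  set T' : MvPolynomial (Fin M) ℂ →ₐ[ℂ] MvPolynomial (Fin M) ℂ :=
    MvPolynomial.aeval fun l => MvPolynomial.X l - MvPolynomial.C (c l) with hT'
  have hTT : ∀ q, T' (T q) = q := by
    intro q
    have : T'.comp T = AlgHom.id ℂ _ := by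
      apply MvPolynomial.algHom_ext
      intro l
      rw [AlgHom.comp_apply, hT, MvPolynomial.aeval_X, map_add, hT', MvPolynomial.aeval_X,
        MvPolynomial.aeval_C, AlgHom.id_apply]
      change MvPolynomial.X l - MvPolynomial.C (c l) + MvPolynomial.C (c l) = _
      ring
    exact congrArg (fun f => f q) this
  have haev : MvPolynomial.aeval (fun l => PowerSeries.X * w l) (T Q) = 0 := by
    have : (MvPolynomial.aeval (fun l => PowerSeries.X * w l)).comp T
        = MvPolynomial.aeval (R := ℂ) y := by
      apply MvPolynomial.algHom_ext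
      intro l
      rw [AlgHom.comp_apply, hT, MvPolynomial.aeval_X, map_add, MvPolynomial.aeval_X,
        MvPolynomial.aeval_C, MvPolynomial.aeval_X, hw l]
      ring
    have h2 := congrArg (fun f => f Q) this
    simp only [AlgHom.comp_apply] at h2
    rw [h2, hQ]
  have hhom : ∀ (n : ℕ) (q : MvPolynomial (Fin M) ℂ), q.IsHomogeneous n →
      MvPolynomial.aeval (fun l => PowerSeries.X * w l) q
        = PowerSeries.X ^ n * MvPolynomial.aeval w q := by
    intro n q hq
    rw [MvPolynomial.aeval_def, MvPolynomial.aeval_def, MvPolynomial.eval₂_eq,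
      MvPolynomial.eval₂_eq, mul_sum]
    apply sum_congr rfl
    intro d hd
    have hdn : ∑ i ∈ d.support, d i = n := by
      have := hq (MvPolynomial.mem_support_iff.1 hd)
      rw [Finsupp.weight_apply] at this
      simpa [Finsupp.sum] using this
    have : ∏ i ∈ d.support, (PowerSeries.X * w i) ^ d i
        = PowerSeries.X ^ n * ∏ i ∈ d.support, w i ^ d i := by
      simp_rw [mul_pow]
      rw [prod_mul_distrib, prod_pow_eq_pow_sum, hdn]
    rw [this]; ring
  have hcomp : ∀ n : ℕ, MvPolynomial.homogeneousComponent n (T Q) = 0 := by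
    intro n
    induction n using Nat.strong_induction_on with
    | _ n ih =>
      have hsum := MvPolynomial.sum_homogeneousComponent (T Q)
      have h2 : PowerSeries.coeff n (MvPolynomial.aeval (fun l => PowerSeries.X * w l) (T Q)) = 0 := by
        rw [haev]; simp
      rw [← hsum, map_sum, map_sum] at h2
      have h3 : ∀ i ∈ range ((T Q).totalDegree + 1), i ≠ n →
          PowerSeries.coeff n (MvPolynomial.aeval (fun l => PowerSeries.X * w l)
            (MvPolynomial.homogeneousComponent i (T Q))) = 0 := by
        intro i _ hin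
        rcases lt_or_gt_of_ne hin with h | h
        · rw [ih i h]; simp
        · rw [hhom i _ (MvPolynomial.homogeneousComponent_isHomogeneous i _),
            PowerSeries.coeff_X_pow_mul', if_neg (by omega)]
      by_cases hn : n ∈ range ((T Q).totalDegree + 1)
      · rw [sum_eq_single_of_mem n hn h3,
          hhom n _ (MvPolynomial.homogeneousComponent_isHomogeneous n _),
          PowerSeries.coeff_X_pow_mul', if_pos le_rfl, Nat.sub_self,
          PowerSeries.coeff_zero_eq_constantCoeff_apply] at h2
        have h4 : ∀ q : MvPolynomial (Fin M) ℂ, PowerSeries.constantCoeff (MvPolynomial.aeval w q)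
            = MvPolynomial.aeval u q := by
          intro q
          rw [MvPolynomial.aeval_def, MvPolynomial.aeval_def, MvPolynomial.eval₂_eq,
            MvPolynomial.eval₂_eq, map_sum]
          apply sum_congr rfl
          intro d _
          rw [map_mul, map_prod, PowerSeries.algebraMap_apply]
          simp [hw0]
        rw [h4] at h2
        exact (injective_iff_map_eq_zero _).1 hu _ h2
      · apply MvPolynomial.homogeneousComponent_eq_zero
        rw [mem_range, not_lt] at hn
        omega
  have hTQ : T Q = 0 := by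
    rw [← MvPolynomial.sum_homogeneousComponent (T Q)]
    exact sum_eq_zero fun i _ => hcomp i
  rw [← hTT Q, hTQ, map_zero]

/-- I. The generic direction has as many parameters as possible. -/
theorem indep {N M : ℕ} (A : Matrix (Fin M) (Fin N) ℂ) (e : Fin M → Fin N)
    (hdet : (A.submatrix id e).det ≠ 0) (c : Fin M → ℂ) (y : Fin M → PowerSeries (Kl N))
    (h0 : ∀ l, PowerSeries.coeff 0 (y l) = algebraMap ℂ (Kl N) (c l))
    (h1 : ∀ l, PowerSeries.coeff 1 (y l) = ∑ m, pl m * algebraMap ℂ (Kl N) (A l m)) :
    AlgebraicIndependent ℂ fun l => algebraMap (PowerSeries (Kl N)) (Kc (Kl N)) (y l) := by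
  have hinj1 : Function.Injective (algebraMap (MvPolynomial (Fin N) ℂ) (Kl N)) := by
    rw [IsScalarTower.algebraMap_eq (MvPolynomial (Fin N) ℂ)
      (FractionRing (MvPolynomial (Fin N) ℂ)) (Kl N)]
    exact (algebraMap (FractionRing (MvPolynomial (Fin N) ℂ)) (Kl N)).injective.comp
      (IsFractionRing.injective _ _)
  have hinj2 : Function.Injective (algebraMap (PowerSeries (Kl N)) (Kc (Kl N))) := by
    rw [IsScalarTower.algebraMap_eq (PowerSeries (Kl N))
      (FractionRing (PowerSeries (Kl N))) (Kc (Kl N))]
    exact (algebraMap (FractionRing (PowerSeries (Kl N))) (Kc (Kl N))).injective.comp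
      (IsFractionRing.injective _ _)
  have hu : AlgebraicIndependent ℂ (fun l : Fin M =>
      ∑ m, pl m * algebraMap ℂ (Kl N) (A l m)) := by
    have h2 := (lin_indep A e hdet).map'
      (f := IsScalarTower.toAlgHom ℂ (MvPolynomial (Fin N) ℂ) (Kl N)) hinj1
    convert h2 using 1
    funext l
    simp only [Function.comp_apply, map_sum, map_mul, IsScalarTower.coe_toAlgHom', pl]
    apply sum_congr rfl
    intro m _
    rw [mul_comm]
    rfl
  have h3 := ps_indep c _ hu y h0 h1
  exact h3.map' (f := IsScalarTower.toAlgHom ℂ (PowerSeries (Kl N)) (Kc (Kl N))) hinj2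

end Pool.Agent.Helper22.DP
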